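import Pool.Agent.Run7.h747.ZB.Defs

/-! Piece CONV of the project ZB of helper747 (by helper40). -/

set_option autoImplicit false

namespace Run7.h40.ZB

open Run7.h747.ZB Finset ComplexConjugate

theorem shift_sum (f : ℤ → ℂ) (q a b a' b' : ℤ) (h1 : ∀ x, f x ≠ 0 → a' ≤ x ∧ x ≤ b')
    (h2 : ∀ x, f x ≠ 0 → a ≤ x + q ∧ x + q ≤ b) :
    ∑ M ∈ Icc a b, f (M - q) = ∑ t ∈ Icc a' b', f t := by
  have e1 : ∑' M, f (M - q) = ∑ M ∈ Icc a b, f (M - q) := by
    apply tsum_eq_sum
    intro x hx
    by_contra h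
    apply hx
    have := h2 (x - q) h
    rw [sub_add_cancel] at this
    exact mem_Icc.2 this
  have e2 : ∑' t, f t = ∑ t ∈ Icc a' b', f t := by
    apply tsum_eq_sum
    intro x hx
    by_contra h
    exact hx (mem_Icc.2 (h1 x h))
  rw [← e1, ← e2]
  exact (Equiv.subRight q).tsum_eq f

theorem t_CONV : S_CONV := by
  intro b A B hb
  have hs : ∀ q, b q ≠ 0 → A ≤ q ∧ q ≤ B := by
    intro q hq
    by_contra h
    apply hq
    apply hb
    omega
  rcases lt_or_ge B A with hBA | hAB
  · rw [Icc_eq_empty (by omega : ¬ A ≤ B)]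
    simp only [sum_empty]
    exact (by positivity : (0 : ℝ) ≤ ∑ M ∈ Icc (2 * A) (2 * B), ‖(0 : ℂ)‖ ^ 2).trans' (by norm_num)
  set E : ℤ → ℂ := fun d => ∑ t ∈ Icc A B, b t * conj (b (t + d)) with hE
  have key : ∑ M ∈ Icc (2 * A) (2 * B), ((‖∑ q ∈ Icc A B, b q * b (M - q)‖ ^ 2 : ℝ) : ℂ) =
      ∑ d ∈ Icc (A - B) (B - A), ((‖E d‖ ^ 2 : ℝ) : ℂ) := by
    have e1 : ∀ z : ℂ, ((‖z‖ ^ 2 : ℝ) : ℂ) = z * conj z := by
      intro z
      rw [Complex.mul_conj, Complex.normSq_eq_norm_sq]
    simp only [e1]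
    have e2 : ∀ q ∈ Icc A B, ∀ q' ∈ Icc A B,
        ∑ M ∈ Icc (2 * A) (2 * B), b (M - q) * conj (b (M - q')) = E (q - q') := by
      intro q hq q' hq'
      rw [mem_Icc] at hq hq'
      have := shift_sum (fun x => b x * conj (b (x + (q - q')))) q (2 * A) (2 * B) A B
        (fun x hx => hs x (left_ne_zero_of_mul hx))
        (fun x hx => by have := hs x (left_ne_zero_of_mul hx); omega)
      rw [hE]
      show _ = ∑ t ∈ Icc A B, b t * conj (b (t + (q - q')))
      rw [← this]
      apply sum_congr rfl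
      intro M _
      congr 3
      ring
    have e3 : ∀ q' ∈ Icc A B, ∑ q ∈ Icc A B, b q * conj (b q') * E (q - q') =
        ∑ d ∈ Icc (A - B) (B - A), b (q' + d) * conj (b q') * E d := by
      intro q' hq'
      rw [mem_Icc] at hq'
      have := shift_sum (fun d => b (q' + d) * conj (b q') * E d) q' A B (A - B) (B - A)
        (fun x hx => by
          have := hs _ (left_ne_zero_of_mul (left_ne_zero_of_mul hx)); omega)
        (fun x hx => by
          have := hs _ (left_ne_zero_of_mul (left_ne_zero_of_mul hx)); omega)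
      rw [← this]
      apply sum_congr rfl
      intro M _
      congr 3
      ring
    calc ∑ M ∈ Icc (2 * A) (2 * B), (∑ q ∈ Icc A B, b q * b (M - q)) *
          conj (∑ q ∈ Icc A B, b q * b (M - q))
        = ∑ M ∈ Icc (2 * A) (2 * B), ∑ q ∈ Icc A B, ∑ q' ∈ Icc A B,
            (b q * conj (b q')) * (b (M - q) * conj (b (M - q'))) := by
          apply sum_congr rfl
          intro M _
          rw [map_sum, sum_mul_sum]
          apply sum_congr rfl
          intro q _
          apply sum_congr rfl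
          intro q' _
          rw [map_mul]
          ring
      _ = ∑ q' ∈ Icc A B, ∑ q ∈ Icc A B, b q * conj (b q') * E (q - q') := by
          rw [sum_comm]
          have e4 : ∀ q ∈ Icc A B, ∑ M ∈ Icc (2 * A) (2 * B), ∑ q' ∈ Icc A B,
              (b q * conj (b q')) * (b (M - q) * conj (b (M - q'))) =
              ∑ q' ∈ Icc A B, b q * conj (b q') * E (q - q') := by
            intro q hq
            rw [sum_comm]
            apply sum_congr rfl
            intro q' hq'
            rw [← mul_sum, e2 q hq q' hq']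
          rw [sum_congr rfl e4, sum_comm]
      _ = ∑ q' ∈ Icc A B, ∑ d ∈ Icc (A - B) (B - A), b (q' + d) * conj (b q') * E d :=
          sum_congr rfl e3
      _ = ∑ d ∈ Icc (A - B) (B - A), E d * conj (E d) := by
          rw [sum_comm]
          apply sum_congr rfl
          intro d _
          rw [← sum_mul, mul_comm]
          congr 1
          rw [hE]
          simp only [map_sum, map_mul, Complex.conj_conj]
          apply sum_congr rfl
          intro t _
          ring
  have key' : ∑ M ∈ Icc (2 * A) (2 * B), ‖∑ q ∈ Icc A B, b q * b (M - q)‖ ^ 2 =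
      ∑ d ∈ Icc (A - B) (B - A), ‖E d‖ ^ 2 := by
    exact_mod_cast key
  rw [key']
  have h0 : E 0 = ((∑ q ∈ Icc A B, ‖b q‖ ^ 2 : ℝ) : ℂ) := by
    rw [hE]
    push_cast
    apply sum_congr rfl
    intro t _
    rw [add_zero, Complex.mul_conj, Complex.normSq_eq_norm_sq]
    push_cast
    rfl
  have h1 : (∑ q ∈ Icc A B, ‖b q‖ ^ 2) ^ 2 = ‖E 0‖ ^ 2 := by
    rw [h0, Complex.norm_real, Real.norm_eq_abs, sq_abs]
  rw [h1]
  exact single_le_sum (f := fun d => ‖E d‖ ^ 2) (fun _ _ => by positivity)
    (mem_Icc.2 ⟨by omega, by omega⟩)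

end Run7.h40.ZB
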